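import Pool.Agent.N563.LSP.Stm

set_option autoImplicit false

/-!
# The pieces on bounded functions (step SUPB of the project LSP, MP_ee74d2_an)
-/

open MeasureTheory Set

namespace Pool.Agent.N499.LSP

open Pool.Agent.N563.LSP Pool.Agent.TH280.LS Pool.Agent.TH986.SUM

lemma fam_bound {s A : ℝ} (hs : 0 < s) (hA : 0 < A) {M : ℝ → ℝ} (hM : Fam s A M) (j : ℕ) (r : ℝ)
    (hr : 0 < r) : |M r * Ps j r| ≤ A * ((2 : ℝ) ^ j / 2) ^ (-s) := by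
  have hK : (0 : ℝ) < 2 ^ j / 2 := by positivity
  have hKs : 0 < ((2 : ℝ) ^ j / 2) ^ (-s) := Real.rpow_pos_of_pos hK _
  rw [abs_mul]
  by_cases h : 2 * (1 + r) < 2 ^ j
  · rw [Ps_ne j r hr.le h, abs_zero, mul_zero]
    positivity
  · push Not at h
    have h1 := hM.1 r hr
    have h2 : (1 + r) ^ (-s) ≤ ((2 : ℝ) ^ j / 2) ^ (-s) :=
      Real.rpow_le_rpow_of_nonpos hK (by linarith) (by linarith)
    calc |M r| * |Ps j r| ≤ |M r| * 1 := mul_le_mul_of_nonneg_left (Ps_abs j r) (abs_nonneg _)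
      _ ≤ A * (1 + r) ^ (-s) := by rw [mul_one]; exact h1
      _ ≤ A * ((2 : ℝ) ^ j / 2) ^ (-s) := mul_le_mul_of_nonneg_left h2 hA.le

lemma fam_lip {s A : ℝ} (hs : 0 < s) (hA : 0 < A) {M : ℝ → ℝ} (hM : Fam s A M) (j : ℕ)
    (r r' : ℝ) (hr : 0 < r) (hrr : r ≤ r') :
    |M r * Ps j r - M r' * Ps j r'| ≤ 4 * (A * ((2 : ℝ) ^ j / 2) ^ (-s)) * (r' - r) := by
  have hK : (0 : ℝ) < 2 ^ j / 2 := by positivity
  have hKs : 0 < ((2 : ℝ) ^ j / 2) ^ (-s) := Real.rpow_pos_of_pos hK _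
  have h0 : 0 ≤ r' - r := by linarith
  have hr' : 0 < r' := by linarith
  have h2j : (1 : ℝ) ≤ 2 ^ j := one_le_pow₀ (by norm_num)
  have e1 : M r * Ps j r - M r' * Ps j r' =
      M r' * (Ps j r - Ps j r') + Ps j r * (M r - M r') := by ring
  rw [e1]
  by_cases h : 2 * (1 + r') < 2 ^ j
  · rw [Ps_ne j r' hr'.le h, Ps_ne j r hr.le (by linarith)]
    simp only [sub_self, mul_zero, zero_mul, add_zero, abs_zero]
    positivity
  push Not at h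
  have h1 := hM.1 r' hr'
  have h2 : (1 + r') ^ (-s) ≤ ((2 : ℝ) ^ j / 2) ^ (-s) :=
    Real.rpow_le_rpow_of_nonpos hK (by linarith) (by linarith)
  have hM' : |M r'| ≤ A * ((2 : ℝ) ^ j / 2) ^ (-s) :=
    h1.trans (mul_le_mul_of_nonneg_left h2 hA.le)
  have hP : |Ps j r - Ps j r'| ≤ 3 * (r' - r) := by
    refine (Ps_lip j r r' hrr).trans (mul_le_mul_of_nonneg_right ?_ h0)
    rw [div_le_iff₀ (by positivity)]
    linarith
  have t1 : |M r' * (Ps j r - Ps j r')| ≤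
      A * ((2 : ℝ) ^ j / 2) ^ (-s) * (3 * (r' - r)) := by
    rw [abs_mul]
    exact mul_le_mul hM' hP (abs_nonneg _) (by positivity)
  have t2 : |Ps j r * (M r - M r')| ≤ A * ((2 : ℝ) ^ j / 2) ^ (-s) * (r' - r) := by
    rw [abs_mul]
    by_cases h3 : 2 * (1 + r) < 2 ^ j
    · rw [Ps_ne j r hr.le h3, abs_zero, zero_mul]
      positivity
    · push Not at h3
      have h4 := hM.2 r r' hr hrr
      have h5 : (1 + r) ^ (-s) ≤ ((2 : ℝ) ^ j / 2) ^ (-s) :=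
        Real.rpow_le_rpow_of_nonpos hK (by linarith) (by linarith)
      calc |Ps j r| * |M r - M r'| ≤ 1 * |M r - M r'| :=
            mul_le_mul_of_nonneg_right (Ps_abs j r) (abs_nonneg _)
        _ ≤ A * (1 + r) ^ (-s) * (r' - r) := by rw [one_mul]; exact h4
        _ ≤ A * ((2 : ℝ) ^ j / 2) ^ (-s) * (r' - r) :=
            mul_le_mul_of_nonneg_right (mul_le_mul_of_nonneg_left h5 hA.le) h0
  refine (abs_add_le _ _).trans ?_
  have e2 : 4 * (A * ((2 : ℝ) ^ j / 2) ^ (-s)) * (r' - r) =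
      A * ((2 : ℝ) ^ j / 2) ^ (-s) * (3 * (r' - r)) +
      A * ((2 : ℝ) ^ j / 2) ^ (-s) * (r' - r) := by ring
  rw [e2]
  exact add_le_add t1 t2

lemma ra_pos {a : ℝ} (ha : 0 < a) (ξ : ℝ) : 0 < ra a ξ := by
  unfold ra
  exact Real.sqrt_pos.2 (by positivity)

/-- the symbol of a piece -/
noncomputable def Ns (M : ℝ → ℝ) (a : ℝ) (j : ℕ) (ξ : ℝ) : ℂ :=
  ((M (ra a ξ) * Ps j (ra a ξ) : ℝ) : ℂ)

lemma Ns_bound {s A : ℝ} (hs : 0 < s) (hA : 0 < A) {M : ℝ → ℝ} (hM : Fam s A M) {a : ℝ}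
    (ha : 0 < a) (j : ℕ) (ξ : ℝ) : ‖Ns M a j ξ‖ ≤ A * ((2 : ℝ) ^ j / 2) ^ (-s) := by
  unfold Ns
  rw [Complex.norm_real, Real.norm_eq_abs]
  exact fam_bound hs hA hM j _ (ra_pos ha ξ)

lemma Ns_lip {s A : ℝ} (hs : 0 < s) (hA : 0 < A) {M : ℝ → ℝ} (hM : Fam s A M) {a : ℝ}
    (ha : 0 < a) (j : ℕ) (ξ ξ' : ℝ) :
    ‖Ns M a j ξ - Ns M a j ξ'‖ ≤ 4 * (A * ((2 : ℝ) ^ j / 2) ^ (-s)) * |ξ - ξ'| := by
  have hK : (0 : ℝ) < 2 ^ j / 2 := by positivity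
  have hKs : 0 < ((2 : ℝ) ^ j / 2) ^ (-s) := Real.rpow_pos_of_pos hK _
  have hL : 0 ≤ 4 * (A * ((2 : ℝ) ^ j / 2) ^ (-s)) := by positivity
  unfold Ns
  rw [← Complex.ofReal_sub, Complex.norm_real, Real.norm_eq_abs]
  have hra := ra_lip a ξ ξ'
  rcases le_total (ra a ξ) (ra a ξ') with h | h
  · refine (fam_lip hs hA hM j _ _ (ra_pos ha ξ) h).trans (mul_le_mul_of_nonneg_left ?_ hL)
    rw [abs_sub_comm] at hra
    exact (le_abs_self _).trans hra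
  · rw [abs_sub_comm]
    refine (fam_lip hs hA hM j _ _ (ra_pos ha ξ') h).trans (mul_le_mul_of_nonneg_left ?_ hL)
    exact (le_abs_self _).trans hra

lemma Ns_far (M : ℝ → ℝ) (a : ℝ) (j : ℕ) (ξ : ℝ) (h : 2 * 2 ^ j < |ξ|) : Ns M a j ξ = 0 := by
  unfold Ns
  rw [Ps_far j _ (h.trans_le (abs_le_ra a ξ)), mul_zero, Complex.ofReal_zero]

lemma Ns_cont {s A : ℝ} (hs : 0 < s) (hA : 0 < A) {M : ℝ → ℝ} (hM : Fam s A M) {a : ℝ}
    (ha : 0 < a) (j : ℕ) : Continuous (Ns M a j) := by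
  have hK : (0 : ℝ) < 2 ^ j / 2 := by positivity
  have hKs : 0 < ((2 : ℝ) ^ j / 2) ^ (-s) := Real.rpow_pos_of_pos hK _
  have hL : 0 ≤ 4 * (A * ((2 : ℝ) ^ j / 2) ^ (-s)) := by positivity
  have : LipschitzWith ⟨4 * (A * ((2 : ℝ) ^ j / 2) ^ (-s)), hL⟩ (Ns M a j) := by
    apply LipschitzWith.of_dist_le_mul
    intro x y
    rw [dist_eq_norm, Real.dist_eq]
    exact Ns_lip hs hA hM ha j x y
  exact this.continuous

lemma Ns_int {s A : ℝ} (hs : 0 < s) (hA : 0 < A) {M : ℝ → ℝ} (hM : Fam s A M) {a : ℝ}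
    (ha : 0 < a) (j : ℕ) : Integrable (Ns M a j) := by
  apply (Ns_cont hs hA hM ha j).integrable_of_hasCompactSupport
  apply HasCompactSupport.intro (K := Icc (-(2 * 2 ^ j : ℝ)) (2 * 2 ^ j)) isCompact_Icc
  intro ξ hξ
  apply Ns_far
  by_contra hc
  push Not at hc
  exact hξ (abs_le.1 hc)

theorem supb_ (h1 : S_KER) (h2 : S_CONV) : S_SUPB := by
  obtain ⟨C₁, hC₁, hker⟩ := h1
  intro s hs
  refine ⟨C₁ * Real.sqrt 8 * 2 ^ s, by positivity, ?_⟩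
  intro A a l j M G hA ha hM hG hl x
  have hT : (0 : ℝ) < 2 ^ j := by positivity
  set T : ℝ := 2 ^ j with hTdef
  have hK : (0 : ℝ) < T / 2 := by positivity
  have hKs : 0 < (T / 2) ^ (-s) := Real.rpow_pos_of_pos hK _
  set B : ℝ := A * (T / 2) ^ (-s) with hB
  have hBpos : 0 < B := by positivity
  have key := hker (2 * T) B (4 * B) (Ns M a j) (by positivity) hBpos (by positivity)
    (fun ξ => Ns_bound hs hA hM ha j ξ) (fun ξ ξ' => Ns_lip hs hA hM ha j ξ ξ')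
    (fun ξ hξ => Ns_far M a j ξ hξ)
  have hκ : C₁ * Real.sqrt (2 * T * B * (4 * B)) =
      C₁ * Real.sqrt 8 * 2 ^ s * A * T ^ (1 / 2 - s) := by
    have e1 : 2 * T * B * (4 * B) = 8 * T * B ^ 2 := by ring
    rw [e1, Real.sqrt_mul (by positivity), Real.sqrt_mul (by norm_num), Real.sqrt_sq hBpos.le, hB,
      Real.div_rpow hT.le (by norm_num), Real.rpow_sub hT, Real.sqrt_eq_rpow T,
      Real.rpow_neg hT.le, Real.rpow_neg (by norm_num : (0 : ℝ) ≤ 2)]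
    have h3 : (2 : ℝ) ^ s ≠ 0 := (Real.rpow_pos_of_pos (by norm_num) s).ne'
    have h4 : T ^ s ≠ 0 := (Real.rpow_pos_of_pos hT s).ne'
    field_simp
  rw [hκ] at key
  have hκ0 : 0 ≤ C₁ * Real.sqrt 8 * 2 ^ s * A * T ^ (1 / 2 - s) := by
    have := Real.rpow_pos_of_pos hT (1 / 2 - s)
    positivity
  exact (h2 (Ns M a j) _ (Ns_cont hs hA hM ha j) (Ns_int hs hA hM ha j) hκ0 key G hG).1 l hl x

end Pool.Agent.N499.LSP
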